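import Mathlib

/-!
# Cyclic Steiner triple systems: counting tools

* `sts_of_cover`: a family of at most `n(n-1)/6` triples covering all pairs is a Steiner triple system;
* `iso_class_le`: at most `n` labelled cyclic systems on `ZMod n` are isomorphic to a given one;
* `exists_family`: choosing pairwise inequivalent elements.
-/

set_option autoImplicit false

namespace Pool.Agent.TH414.Cyc

open Finset

section Count

variable {α : Type} [DecidableEq α] [Fintype α]

theorem sts_of_cover (B : Finset (Finset α)) (h3 : ∀ b ∈ B, b.card = 3)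
    (hcov : ∀ x y : α, x ≠ y → ∃ b ∈ B, x ∈ b ∧ y ∈ b)
    (hcard : 6 * B.card ≤ Fintype.card α * (Fintype.card α - 1)) :
    ∀ x y : α, x ≠ y → ∃! b : Finset α, b ∈ B ∧ x ∈ b ∧ y ∈ b := by
  classical
  -- `f p` = the number of blocks through the pair `p`
  let f : α × α → ℕ := fun p => (B.filter (fun b => p.1 ∈ b ∧ p.2 ∈ b)).card
  have hsum : ∑ p ∈ (univ : Finset α).offDiag, f p = 6 * B.card := by
    have h1 : ∑ p ∈ (univ : Finset α).offDiag, f p
        = ∑ p ∈ (univ : Finset α).offDiag, ∑ b ∈ B, if (p.1 ∈ b ∧ p.2 ∈ b) then 1 else 0 := by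
      refine sum_congr rfl fun p _ => ?_
      simp only [f, card_filter]
    rw [h1, sum_comm]
    have h2 : ∀ b ∈ B, ∑ p ∈ (univ : Finset α).offDiag,
        (if (p.1 ∈ b ∧ p.2 ∈ b) then 1 else 0) = 6 := by
      intro b hb
      rw [← card_filter]
      have h4 : (univ : Finset α).offDiag.filter (fun p => p.1 ∈ b ∧ p.2 ∈ b) = b.offDiag := by
        ext p
        simp only [mem_filter, mem_offDiag, mem_univ, true_and]
        tauto
      rw [h4, offDiag_card, h3 b hb]
    rw [sum_congr rfl h2, sum_const, smul_eq_mul, mul_comm]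
  have hone : ∀ p ∈ (univ : Finset α).offDiag, 1 ≤ f p := by
    intro p hp
    obtain ⟨b, hb, h1, h2⟩ := hcov p.1 p.2 (by simpa using hp)
    exact card_pos.2 ⟨b, mem_filter.2 ⟨hb, h1, h2⟩⟩
  have hcard2 : (univ : Finset α).offDiag.card = Fintype.card α * (Fintype.card α - 1) := by
    rw [offDiag_card, card_univ, Nat.mul_sub_one]
  have hle : ∑ p ∈ (univ : Finset α).offDiag, f p ≤ ∑ p ∈ (univ : Finset α).offDiag, 1 := by
    rw [hsum, sum_const, smul_eq_mul, mul_one, hcard2]
    exact hcard
  have heq : ∀ p ∈ (univ : Finset α).offDiag, 1 = f p := by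
    have h5 : ∑ p ∈ (univ : Finset α).offDiag, 1 = ∑ p ∈ (univ : Finset α).offDiag, f p :=
      le_antisymm (sum_le_sum hone) hle
    exact (sum_eq_sum_iff_of_le hone).1 h5
  intro x y hxy
  have h6 : f (x, y) = 1 := (heq (x, y) (by simpa using hxy)).symm
  obtain ⟨b, hb⟩ := card_eq_one.1 h6
  have hb1 : b ∈ B.filter (fun b => x ∈ b ∧ y ∈ b) := by rw [hb]; exact mem_singleton_self b
  refine ⟨b, mem_filter.1 hb1, ?_⟩
  intro c hc
  have : c ∈ B.filter (fun b => x ∈ b ∧ y ∈ b) := mem_filter.2 hc
  rw [hb] at this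
  exact mem_singleton.1 this

end Count

section Family

theorem exists_family {β : Type} [DecidableEq β] (S : Finset β) (r : β → β → Prop) [DecidableRel r]
    (hsymm : ∀ a b, r a b → r b a) (n : ℕ)
    (hn : ∀ a ∈ S, (S.filter (fun b => r a b)).card ≤ n) :
    ∀ M : ℕ, M * n < S.card → ∃ f : Fin M → β, (∀ i, f i ∈ S) ∧ ∀ i j, i ≠ j → ¬ r (f i) (f j) := by
  intro M
  induction M with
  | zero => intro _; exact ⟨Fin.elim0, fun i => i.elim0, fun i => i.elim0⟩
  | succ M ih =>
    intro hM
    obtain ⟨f, hf, hr⟩ := ih (lt_of_le_of_lt (Nat.mul_le_mul_right n (Nat.le_succ M)) hM)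
    have h1 : ((univ : Finset (Fin M)).biUnion (fun i => S.filter (fun b => r (f i) b))).card
        ≤ M * n := by
      refine (card_biUnion_le).trans ?_
      calc ∑ i : Fin M, (S.filter (fun b => r (f i) b)).card ≤ ∑ _i : Fin M, n :=
            sum_le_sum fun i _ => hn (f i) (hf i)
        _ = M * n := by simp
    have h2 : ∃ s ∈ S, s ∉ (univ : Finset (Fin M)).biUnion (fun i => S.filter (fun b => r (f i) b)) := by
      by_contra hcon
      push Not at hcon
      have h3 := card_le_card (show S ⊆ _ from hcon)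
      have h4 : M * n ≤ (M + 1) * n := Nat.mul_le_mul_right n (Nat.le_succ M)
      omega
    obtain ⟨s, hs, hs'⟩ := h2
    have h5 : ∀ i, ¬ r (f i) s := by
      intro i hi
      exact hs' (mem_biUnion.2 ⟨i, mem_univ i, mem_filter.2 ⟨hs, hi⟩⟩)
    refine ⟨Fin.snoc f s, ?_, ?_⟩
    · intro i
      refine Fin.lastCases ?_ (fun j => ?_) i
      · simpa using hs
      · simpa using hf j
    · intro i j
      refine Fin.lastCases ?_ (fun i' => ?_) i
      · refine Fin.lastCases ?_ (fun j' => ?_) j
        · intro h; exact absurd rfl h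
        · intro _ h
          simp only [Fin.snoc_last, Fin.snoc_castSucc] at h
          exact h5 j' (hsymm _ _ h)
      · refine Fin.lastCases ?_ (fun j' => ?_) j
        · intro _ h
          simp only [Fin.snoc_last, Fin.snoc_castSucc] at h
          exact h5 i' h
        · intro h h'
          simp only [Fin.snoc_castSucc] at h'
          exact hr i' j' (fun e => h (by rw [e])) h'

end Family

section Iso

open scoped Pointwise

variable (n : ℕ) [NeZero n]

/-- The rotation `x ↦ x + 1`. -/
def rot : Equiv.Perm (ZMod n) := Equiv.addRight 1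

theorem rot_apply (x : ZMod n) : rot n x = x + 1 := rfl

/-- A permutation commuting with the rotation and fixing `0` is the identity. -/
theorem eq_one_of_comm (g : Equiv.Perm (ZMod n)) (hg : ∀ x, g (x + 1) = g x + 1) (h0 : g 0 = 0) :
    g = 1 := by
  have h : ∀ k : ℕ, g (k : ZMod n) = (k : ZMod n) := by
    intro k
    induction k with
    | zero => simpa using h0
    | succ k ih =>
      push_cast
      rw [hg, ih]
  ext x
  have := h x.val
  rw [ZMod.natCast_zmod_val] at this
  rw [this]
  rfl

/-- At most `n` systems invariant under the rotation are isomorphic to a given one. -/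
theorem iso_class_le (T : Finset (Finset (ZMod n))) (S : Finset (Finset (Finset (ZMod n))))
    (hS : ∀ T' ∈ S, rot n • T' = T') (hiso : ∀ T' ∈ S, ∃ g : Equiv.Perm (ZMod n), g • T = T') :
    S.card ≤ n := by
  classical
  choose! g hg using hiso
  let A : Subgroup (Equiv.Perm (ZMod n)) := MulAction.stabilizer (Equiv.Perm (ZMod n)) T
  have hmem : ∀ p : S × A, (g p.1.1 * p.2.1)⁻¹ * rot n * (g p.1.1 * p.2.1) ∈ A := by
    rintro ⟨⟨T', hT'⟩, a⟩
    have ha : (a : Equiv.Perm (ZMod n)) • T = T := MulAction.mem_stabilizer_iff.1 a.2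
    have h1 : (g T' * (a : Equiv.Perm (ZMod n))) • T = T' := by
      rw [mul_smul, ha, hg T' hT']
    rw [MulAction.mem_stabilizer_iff, mul_smul, mul_smul, h1, hS T' hT', inv_smul_eq_iff]
    exact h1.symm
  let F : S × A → A × ZMod n := fun p => (⟨_, hmem p⟩, (g p.1.1 * p.2.1)⁻¹ 0)
  have hF : Function.Injective F := by
    rintro p q hpq
    simp only [F, Prod.mk.injEq, Subtype.mk.injEq] at hpq
    obtain ⟨h1, h2⟩ := hpq
    set h := g p.1.1 * p.2.1 with hh
    set k := g q.1.1 * q.2.1 with hk
    have h3 : k * h⁻¹ = 1 := by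
      apply eq_one_of_comm
      · intro x
        have h4 : (k * h⁻¹) * rot n = rot n * (k * h⁻¹) := by
          have : k * (h⁻¹ * rot n * h) * h⁻¹ = k * (k⁻¹ * rot n * k) * h⁻¹ := by rw [h1]
          calc (k * h⁻¹) * rot n = k * (h⁻¹ * rot n * h) * h⁻¹ := by group
            _ = k * (k⁻¹ * rot n * k) * h⁻¹ := this
            _ = rot n * (k * h⁻¹) := by group
        have h5 := congrArg (fun σ : Equiv.Perm (ZMod n) => σ x) h4
        simpa [rot_apply, Equiv.Perm.mul_apply] using h5
      · rw [Equiv.Perm.mul_apply, h2, ← Equiv.Perm.mul_apply, mul_inv_cancel]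
        rfl
    have h6 : k = h := by
      rw [mul_inv_eq_one] at h3
      exact h3
    have hap : (p.2 : Equiv.Perm (ZMod n)) • T = T := MulAction.mem_stabilizer_iff.1 p.2.2
    have haq : (q.2 : Equiv.Perm (ZMod n)) • T = T := MulAction.mem_stabilizer_iff.1 q.2.2
    have h7 : h • T = p.1.1 := by rw [hh, mul_smul, hap, hg _ p.1.2]
    have h8 : k • T = q.1.1 := by rw [hk, mul_smul, haq, hg _ q.1.2]
    have h9 : p.1 = q.1 := by
      apply Subtype.ext
      rw [← h7, ← h8, h6]
    have h10 : p.2 = q.2 := by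
      apply Subtype.ext
      have : g p.1.1 * (p.2 : Equiv.Perm (ZMod n)) = g p.1.1 * (q.2 : Equiv.Perm (ZMod n)) := by
        rw [← hh, ← h6, hk, h9]
      exact mul_left_cancel this
    exact Prod.ext h9 h10
  have hcard := Fintype.card_le_of_injective F hF
  rw [Fintype.card_prod, Fintype.card_prod, Fintype.card_coe, ZMod.card, mul_comm] at hcard
  exact Nat.le_of_mul_le_mul_left hcard Fintype.card_pos

end Iso

end Pool.Agent.TH414.Cyc
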