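import Mathlib

/-!
# Difference triples (Heffter's problem) for all large `n ≡ 1, 3 (mod 6)`: Peltesohn's families
-/

set_option autoImplicit false

namespace Pool.Agent.TH414.Cyc

open Finset

/-- `D` is a set of base pairs `(a, b)` (standing for the base triples `{0, a, a + b}`) covering all
differences other than `n / 3`. -/
def IsBase (n : ℕ) (D : Finset (ℕ × ℕ)) : Prop :=
  (∀ p ∈ D, 0 < p.1 ∧ p.1 < p.2 ∧ p.1 + p.2 < n) ∧
  (∀ d, 1 ≤ d → 2 * d < n → 3 * d ≠ n → ∃ p ∈ D, d = p.1 ∨ d = p.2 ∨ d = p.1 + p.2 ∨ d + p.1 + p.2 = n) ∧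
  D.card ≤ n / 6

theorem card4 {f1 f2 f3 : ℕ → ℕ × ℕ} {E : Finset (ℕ × ℕ)} {a b c e m : ℕ} (hE : E.card ≤ e)
    (h : a + b + c + e ≤ m) :
    ((range a).image f1 ∪ (range b).image f2 ∪ (range c).image f3 ∪ E).card ≤ m := by
  have h1 := card_union_le ((range a).image f1 ∪ (range b).image f2 ∪ (range c).image f3) E
  have h2 := card_union_le ((range a).image f1 ∪ (range b).image f2) ((range c).image f3)
  have h3 := card_union_le ((range a).image f1) ((range b).image f2)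
  have h4 : ((range a).image f1).card ≤ a := card_image_le.trans (card_range a).le
  have h5 : ((range b).image f2).card ≤ b := card_image_le.trans (card_range b).le
  have h6 : ((range c).image f3).card ≤ c := card_image_le.trans (card_range c).le
  omega

theorem mem1 {f1 f2 f3 : ℕ → ℕ × ℕ} {E : Finset (ℕ × ℕ)} {a b c : ℕ} (r : ℕ) (h : r < a) :
    f1 r ∈ (range a).image f1 ∪ (range b).image f2 ∪ (range c).image f3 ∪ E := by
  simp only [mem_union]
  exact Or.inl (Or.inl (Or.inl (mem_image_of_mem _ (mem_range.2 h))))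

theorem mem2 {f1 f2 f3 : ℕ → ℕ × ℕ} {E : Finset (ℕ × ℕ)} {a b c : ℕ} (r : ℕ) (h : r < b) :
    f2 r ∈ (range a).image f1 ∪ (range b).image f2 ∪ (range c).image f3 ∪ E := by
  simp only [mem_union]
  exact Or.inl (Or.inl (Or.inr (mem_image_of_mem _ (mem_range.2 h))))

theorem mem3 {f1 f2 f3 : ℕ → ℕ × ℕ} {E : Finset (ℕ × ℕ)} {a b c : ℕ} (r : ℕ) (h : r < c) :
    f3 r ∈ (range a).image f1 ∪ (range b).image f2 ∪ (range c).image f3 ∪ E := by
  simp only [mem_union]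
  exact Or.inl (Or.inr (mem_image_of_mem _ (mem_range.2 h)))

theorem mem4 {f1 f2 f3 : ℕ → ℕ × ℕ} {E : Finset (ℕ × ℕ)} {a b c : ℕ} {p : ℕ × ℕ} (h : p ∈ E) :
    p ∈ (range a).image f1 ∪ (range b).image f2 ∪ (range c).image f3 ∪ E :=
  mem_union_right _ h

theorem mem_cases {f1 f2 f3 : ℕ → ℕ × ℕ} {E : Finset (ℕ × ℕ)} {a b c : ℕ} {p : ℕ × ℕ}
    (h : p ∈ (range a).image f1 ∪ (range b).image f2 ∪ (range c).image f3 ∪ E) :
    (∃ r < a, p = f1 r) ∨ (∃ r < b, p = f2 r) ∨ (∃ r < c, p = f3 r) ∨ p ∈ E := by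
  simp only [mem_union, mem_image, mem_range] at h
  rcases h with ((⟨r, h1, h2⟩ | ⟨r, h1, h2⟩) | ⟨r, h1, h2⟩) | h
  · exact Or.inl ⟨r, h1, h2.symm⟩
  · exact Or.inr (Or.inl ⟨r, h1, h2.symm⟩)
  · exact Or.inr (Or.inr (Or.inl ⟨r, h1, h2.symm⟩))
  · exact Or.inr (Or.inr (Or.inr h))

/-! ### `n = 18 s + 1` -/

theorem base1 (s : ℕ) (hs : 2 ≤ s) : ∃ D, IsBase (18 * s + 1) D := by
  let f1 : ℕ → ℕ × ℕ := fun r => (3 * r + 1, 4 * s - r + 1)
  let f2 : ℕ → ℕ × ℕ := fun r => (3 * r + 2, 8 * s - r)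
  let f3 : ℕ → ℕ × ℕ := fun r => (3 * r + 3, 6 * s - 2 * r - 1)
  refine ⟨(range s).image f1 ∪ (range s).image f2 ∪ (range (s - 1)).image f3 ∪
    {(3 * s, 3 * s + 1)}, ?_, ?_, ?_⟩
  · intro p hp
    rcases mem_cases hp with ⟨r, hr, rfl⟩ | ⟨r, hr, rfl⟩ | ⟨r, hr, rfl⟩ | h
    · simp only [f1]; omega
    · simp only [f2]; omega
    · simp only [f3]; omega
    · rw [mem_singleton] at h; subst h; dsimp only; omega
  · intro d h1 h2 h3
    by_cases c1 : d ≤ 3 * s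
    · rcases (by omega : d % 3 = 1 ∨ d % 3 = 2 ∨ d % 3 = 0) with m | m | m
      · exact ⟨_, mem1 (d / 3) (by omega), by simp only [f1]; omega⟩
      · exact ⟨_, mem2 (d / 3) (by omega), by simp only [f2]; omega⟩
      · by_cases c2 : d = 3 * s
        · exact ⟨_, mem4 (mem_singleton_self _), by dsimp only; omega⟩
        · exact ⟨_, mem3 (d / 3 - 1) (by omega), by simp only [f3]; omega⟩
    by_cases c2 : d = 3 * s + 1
    · exact ⟨_, mem4 (mem_singleton_self _), by dsimp only; omega⟩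
    by_cases c3 : d ≤ 4 * s + 1
    · exact ⟨_, mem1 (4 * s + 1 - d) (by omega), by simp only [f1]; omega⟩
    by_cases c4 : d ≤ 6 * s
    · rcases Nat.mod_two_eq_zero_or_one d with m | m
      · exact ⟨_, mem1 ((d - 4 * s - 2) / 2) (by omega), by simp only [f1]; omega⟩
      · exact ⟨_, mem3 ((6 * s - 1 - d) / 2) (by omega), by simp only [f3]; omega⟩
    by_cases c5 : d = 6 * s + 1
    · exact ⟨_, mem4 (mem_singleton_self _), by dsimp only; omega⟩
    by_cases c6 : d ≤ 7 * s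
    · exact ⟨_, mem3 (d - 6 * s - 2) (by omega), by simp only [f3]; omega⟩
    by_cases c7 : d ≤ 8 * s
    · exact ⟨_, mem2 (8 * s - d) (by omega), by simp only [f2]; omega⟩
    rcases Nat.mod_two_eq_zero_or_one d with m | m
    · exact ⟨_, mem2 ((d - 8 * s - 2) / 2) (by omega), by simp only [f2]; omega⟩
    · exact ⟨_, mem2 ((10 * s - 1 - d) / 2) (by omega), by simp only [f2]; omega⟩
  · exact card4 (e := 1) (card_singleton _).le (by omega)

/-! ### `n = 18 s + 7` -/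

theorem base7 (s : ℕ) (hs : 2 ≤ s) : ∃ D, IsBase (18 * s + 7) D := by
  let f1 : ℕ → ℕ × ℕ := fun r => (3 * r + 1, 8 * s - r + 3)
  let f2 : ℕ → ℕ × ℕ := fun r => (3 * r + 2, 6 * s - 2 * r + 1)
  let f3 : ℕ → ℕ × ℕ := fun r => (3 * r + 3, 4 * s - r + 1)
  refine ⟨(range s).image f1 ∪ (range s).image f2 ∪ (range s).image f3 ∪
    {(3 * s + 1, 4 * s + 2)}, ?_, ?_, ?_⟩
  · intro p hp
    rcases mem_cases hp with ⟨r, hr, rfl⟩ | ⟨r, hr, rfl⟩ | ⟨r, hr, rfl⟩ | h
    · simp only [f1]; omega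
    · simp only [f2]; omega
    · simp only [f3]; omega
    · rw [mem_singleton] at h; subst h; dsimp only; omega
  · intro d h1 h2 h3
    -- `1..3s`, `3s+1`, `f3 b: 3s+2..4s+1`, `4s+2`, `f2 b: 4s+3..6s+1 odd`,
    -- `f3 c: 4s+4..6s+2 even`, `f2 c: 6s+3..7s+2`, `7s+3`, `f1 b: 7s+4..8s+3`, `f1 c: 8s+4..10s+2`
    by_cases c1 : d ≤ 3 * s
    · rcases (by omega : d % 3 = 1 ∨ d % 3 = 2 ∨ d % 3 = 0) with m | m | m
      · exact ⟨_, mem1 (d / 3) (by omega), by simp only [f1]; omega⟩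
      · exact ⟨_, mem2 (d / 3) (by omega), by simp only [f2]; omega⟩
      · exact ⟨_, mem3 (d / 3 - 1) (by omega), by simp only [f3]; omega⟩
    by_cases c2 : d = 3 * s + 1
    · exact ⟨_, mem4 (mem_singleton_self _), by dsimp only; omega⟩
    by_cases c3 : d ≤ 4 * s + 1
    · exact ⟨_, mem3 (4 * s + 1 - d) (by omega), by simp only [f3]; omega⟩
    by_cases c4 : d = 4 * s + 2
    · exact ⟨_, mem4 (mem_singleton_self _), by dsimp only; omega⟩
    by_cases c5 : d ≤ 6 * s + 2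
    · rcases Nat.mod_two_eq_zero_or_one d with m | m
      · exact ⟨_, mem3 ((d - 4 * s - 4) / 2) (by omega), by simp only [f3]; omega⟩
      · exact ⟨_, mem2 ((6 * s + 1 - d) / 2) (by omega), by simp only [f2]; omega⟩
    by_cases c6 : d ≤ 7 * s + 2
    · exact ⟨_, mem2 (d - 6 * s - 3) (by omega), by simp only [f2]; omega⟩
    by_cases c7 : d = 7 * s + 3
    · exact ⟨_, mem4 (mem_singleton_self _), by dsimp only; omega⟩
    by_cases c8 : d ≤ 8 * s + 3
    · exact ⟨_, mem1 (8 * s + 3 - d) (by omega), by simp only [f1]; omega⟩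
    rcases Nat.mod_two_eq_zero_or_one d with m | m
    · exact ⟨_, mem1 ((d - 8 * s - 4) / 2) (by omega), by simp only [f1]; omega⟩
    · exact ⟨_, mem1 ((10 * s + 3 - d) / 2) (by omega), by simp only [f1]; omega⟩
  · exact card4 (e := 1) (card_singleton _).le (by omega)

/-! ### `n = 18 s + 13` -/

theorem base13 (s : ℕ) (hs : 2 ≤ s) : ∃ D, IsBase (18 * s + 13) D := by
  let f1 : ℕ → ℕ × ℕ := fun r => (3 * r + 2, 6 * s - 2 * r + 3)
  let f2 : ℕ → ℕ × ℕ := fun r => (3 * r + 3, 8 * s - r + 5)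
  let f3 : ℕ → ℕ × ℕ := fun r => (3 * r + 1, 4 * s - r + 3)
  refine ⟨(range s).image f1 ∪ (range s).image f2 ∪ (range (s + 1)).image f3 ∪
    {(3 * s + 2, 7 * s + 5)}, ?_, ?_, ?_⟩
  · intro p hp
    rcases mem_cases hp with ⟨r, hr, rfl⟩ | ⟨r, hr, rfl⟩ | ⟨r, hr, rfl⟩ | h
    · simp only [f1]; omega
    · simp only [f2]; omega
    · simp only [f3]; omega
    · rw [mem_singleton] at h; subst h; dsimp only; omega
  · intro d h1 h2 h3
    -- a: `1..3s+1`, `3s+2`; f3 b: `3s+3..4s+3`; f1 b: `4s+5..6s+3` odd; f3 c: `4s+4..6s+4` even;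
    -- f1 c: `6s+5..7s+4`; `7s+5`; f2 b: `7s+6..8s+5`; `8s+6`; f2 c: `8s+8..10s+6` even
    by_cases c1 : d ≤ 3 * s + 1
    · rcases (by omega : d % 3 = 1 ∨ d % 3 = 2 ∨ d % 3 = 0) with m | m | m
      · exact ⟨_, mem3 (d / 3) (by omega), by simp only [f3]; omega⟩
      · exact ⟨_, mem1 (d / 3) (by omega), by simp only [f1]; omega⟩
      · exact ⟨_, mem2 (d / 3 - 1) (by omega), by simp only [f2]; omega⟩
    by_cases c2 : d = 3 * s + 2
    · exact ⟨_, mem4 (mem_singleton_self _), by dsimp only; omega⟩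
    by_cases c3 : d ≤ 4 * s + 3
    · exact ⟨_, mem3 (4 * s + 3 - d) (by omega), by simp only [f3]; omega⟩
    by_cases c5 : d ≤ 6 * s + 4
    · rcases Nat.mod_two_eq_zero_or_one d with m | m
      · exact ⟨_, mem3 ((d - 4 * s - 4) / 2) (by omega), by simp only [f3]; omega⟩
      · exact ⟨_, mem1 ((6 * s + 3 - d) / 2) (by omega), by simp only [f1]; omega⟩
    by_cases c6 : d ≤ 7 * s + 4
    · exact ⟨_, mem1 (d - 6 * s - 5) (by omega), by simp only [f1]; omega⟩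
    by_cases c7 : d = 7 * s + 5
    · exact ⟨_, mem4 (mem_singleton_self _), by dsimp only; omega⟩
    by_cases c8 : d ≤ 8 * s + 5
    · exact ⟨_, mem2 (8 * s + 5 - d) (by omega), by simp only [f2]; omega⟩
    by_cases c9 : d = 8 * s + 6
    · exact ⟨_, mem4 (mem_singleton_self _), by dsimp only; omega⟩
    rcases Nat.mod_two_eq_zero_or_one d with m | m
    · exact ⟨_, mem2 ((d - 8 * s - 8) / 2) (by omega), by simp only [f2]; omega⟩
    · exact ⟨_, mem2 ((10 * s + 5 - d) / 2) (by omega), by simp only [f2]; omega⟩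
  · exact card4 (e := 1) (card_singleton _).le (by omega)

/-! ### `n = 18 s + 3` -/

theorem base3 (s : ℕ) (hs : 2 ≤ s) : ∃ D, IsBase (18 * s + 3) D := by
  let f1 : ℕ → ℕ × ℕ := fun r => (3 * r + 1, 8 * s - r + 1)
  let f2 : ℕ → ℕ × ℕ := fun r => (3 * r + 2, 4 * s - r)
  let f3 : ℕ → ℕ × ℕ := fun r => (3 * r + 3, 6 * s - 2 * r - 1)
  refine ⟨(range s).image f1 ∪ (range s).image f2 ∪ (range s).image f3 ∪ ∅, ?_, ?_, ?_⟩
  · intro p hp
    rcases mem_cases hp with ⟨r, hr, rfl⟩ | ⟨r, hr, rfl⟩ | ⟨r, hr, rfl⟩ | h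
    · simp only [f1]; omega
    · simp only [f2]; omega
    · simp only [f3]; omega
    · exact absurd h (notMem_empty _)
  · intro d h1 h2 h3
    -- a: `1..3s`; f2 b: `3s+1..4s`; f3 b: `4s+1..6s-1` odd; f2 c: `4s+2..6s` even; (`6s+1` missing)
    -- f3 c: `6s+2..7s+1`; f1 b: `7s+2..8s+1`; f1 c: `8s+2..10s` even
    by_cases c1 : d ≤ 3 * s
    · rcases (by omega : d % 3 = 1 ∨ d % 3 = 2 ∨ d % 3 = 0) with m | m | m
      · exact ⟨_, mem1 (d / 3) (by omega), by simp only [f1]; omega⟩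
      · exact ⟨_, mem2 (d / 3) (by omega), by simp only [f2]; omega⟩
      · exact ⟨_, mem3 (d / 3 - 1) (by omega), by simp only [f3]; omega⟩
    by_cases c3 : d ≤ 4 * s
    · exact ⟨_, mem2 (4 * s - d) (by omega), by simp only [f2]; omega⟩
    by_cases c5 : d ≤ 6 * s
    · rcases Nat.mod_two_eq_zero_or_one d with m | m
      · exact ⟨_, mem2 ((d - 4 * s - 2) / 2) (by omega), by simp only [f2]; omega⟩
      · exact ⟨_, mem3 ((6 * s - 1 - d) / 2) (by omega), by simp only [f3]; omega⟩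
    by_cases c6 : d ≤ 7 * s + 1
    · exact ⟨_, mem3 (d - 6 * s - 2) (by omega), by simp only [f3]; omega⟩
    by_cases c8 : d ≤ 8 * s + 1
    · exact ⟨_, mem1 (8 * s + 1 - d) (by omega), by simp only [f1]; omega⟩
    rcases Nat.mod_two_eq_zero_or_one d with m | m
    · exact ⟨_, mem1 ((d - 8 * s - 2) / 2) (by omega), by simp only [f1]; omega⟩
    · exact ⟨_, mem1 ((10 * s + 1 - d) / 2) (by omega), by simp only [f1]; omega⟩
  · exact card4 (e := 0) (by simp) (by omega)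

/-! ### `n = 18 s + 15` -/

theorem base15 (s : ℕ) (hs : 2 ≤ s) : ∃ D, IsBase (18 * s + 15) D := by
  let f1 : ℕ → ℕ × ℕ := fun r => (3 * r + 1, 4 * s - r + 3)
  let f2 : ℕ → ℕ × ℕ := fun r => (3 * r + 2, 8 * s - r + 6)
  let f3 : ℕ → ℕ × ℕ := fun r => (3 * r + 3, 6 * s - 2 * r + 3)
  refine ⟨(range (s + 1)).image f1 ∪ (range (s + 1)).image f2 ∪ (range s).image f3 ∪ ∅, ?_, ?_, ?_⟩
  · intro p hp
    rcases mem_cases hp with ⟨r, hr, rfl⟩ | ⟨r, hr, rfl⟩ | ⟨r, hr, rfl⟩ | h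
    · simp only [f1]; omega
    · simp only [f2]; omega
    · simp only [f3]; omega
    · exact absurd h (notMem_empty _)
  · intro d h1 h2 h3
    -- a: `1..3s+2`; f1 b: `3s+3..4s+3`; f3 b: `4s+5..6s+3` odd; f1 c: `4s+4..6s+4` even;
    -- (`6s+5` missing) f3 c: `6s+6..7s+5`; f2 b: `7s+6..8s+6`; f2 c: `8s+8..10s+8` even
    by_cases c1 : d ≤ 3 * s + 2
    · rcases (by omega : d % 3 = 1 ∨ d % 3 = 2 ∨ d % 3 = 0) with m | m | m
      · exact ⟨_, mem1 (d / 3) (by omega), by simp only [f1]; omega⟩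
      · exact ⟨_, mem2 (d / 3) (by omega), by simp only [f2]; omega⟩
      · exact ⟨_, mem3 (d / 3 - 1) (by omega), by simp only [f3]; omega⟩
    by_cases c3 : d ≤ 4 * s + 3
    · exact ⟨_, mem1 (4 * s + 3 - d) (by omega), by simp only [f1]; omega⟩
    by_cases c5 : d ≤ 6 * s + 4
    · rcases Nat.mod_two_eq_zero_or_one d with m | m
      · exact ⟨_, mem1 ((d - 4 * s - 4) / 2) (by omega), by simp only [f1]; omega⟩
      · exact ⟨_, mem3 ((6 * s + 3 - d) / 2) (by omega), by simp only [f3]; omega⟩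
    by_cases c6 : d ≤ 7 * s + 5
    · exact ⟨_, mem3 (d - 6 * s - 6) (by omega), by simp only [f3]; omega⟩
    by_cases c8 : d ≤ 8 * s + 6
    · exact ⟨_, mem2 (8 * s + 6 - d) (by omega), by simp only [f2]; omega⟩
    rcases Nat.mod_two_eq_zero_or_one d with m | m
    · exact ⟨_, mem2 ((d - 8 * s - 8) / 2) (by omega), by simp only [f2]; omega⟩
    · exact ⟨_, mem2 ((10 * s + 7 - d) / 2) (by omega), by simp only [f2]; omega⟩
  · exact card4 (e := 0) (by simp) (by omega)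

/-! ### `n = 18 s + 9` -/

theorem base9 (s : ℕ) (hs : 4 ≤ s) : ∃ D, IsBase (18 * s + 9) D := by
  let f1 : ℕ → ℕ × ℕ := fun r => (3 * r + 1, 4 * s - r + 3)
  let f2 : ℕ → ℕ × ℕ := fun r => (3 * (r + 2) + 2, 8 * s - (r + 2) + 2)
  let f3 : ℕ → ℕ × ℕ := fun r => (3 * (r + 1) + 3, 6 * s - 2 * (r + 1) + 1)
  let E : Finset (ℕ × ℕ) := {(2, 8 * s + 3), (3, 8 * s + 1), (5, 8 * s + 2),
    (3 * s - 1, 3 * s + 2), (3 * s, 7 * s + 3)}
  have e1 : (2, 8 * s + 3) ∈ E := by simp [E]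
  have e2 : (3, 8 * s + 1) ∈ E := by simp [E]
  have e3 : (5, 8 * s + 2) ∈ E := by simp [E]
  have e4 : (3 * s - 1, 3 * s + 2) ∈ E := by simp [E]
  have e5 : (3 * s, 7 * s + 3) ∈ E := by simp [E]
  have hE : E.card ≤ 5 := card_le_five
  refine ⟨(range (s + 1)).image f1 ∪ (range (s - 3)).image f2 ∪ (range (s - 2)).image f3 ∪ E,
    ?_, ?_, ?_⟩
  · intro p hp
    rcases mem_cases hp with ⟨r, hr, rfl⟩ | ⟨r, hr, rfl⟩ | ⟨r, hr, rfl⟩ | h
    · simp only [f1]; omega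
    · simp only [f2]; omega
    · simp only [f3]; omega
    · simp only [E, mem_insert, mem_singleton] at h
      rcases h with rfl | rfl | rfl | rfl | rfl <;> dsimp only <;> omega
  · intro d h1 h2 h3
    -- f1: `3r+1` (`1..3s+1`), f1 b: `3s+3..4s+3`, f1 c: `4s+4..6s+4` even
    -- f2 (r = 2..s-2): a `8..3s-4`, b: `7s+4..8s`, c `8s+8..10s` even
    -- f3 (r = 1..s-2): a `6..3s-3`, b: `4s+5..6s-1` odd, c: `6s+5..7s+2`
    -- extra: 2, 8s+3, 8s+5; 3, 8s+1, 8s+4; 5, 8s+2, 8s+7; 3s-1, 3s+2, 6s+1; 3s, 7s+3, 8s+6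
    by_cases c1 : d ≤ 3 * s + 1
    · rcases (by omega : d % 3 = 1 ∨ d % 3 = 2 ∨ d % 3 = 0) with m | m | m
      · exact ⟨_, mem1 (d / 3) (by omega), by simp only [f1]; omega⟩
      · by_cases k1 : d = 2
        · exact ⟨_, mem4 e1, by dsimp only; omega⟩
        by_cases k2 : d = 5
        · exact ⟨_, mem4 e3, by dsimp only; omega⟩
        by_cases k3 : d = 3 * s - 1
        · exact ⟨_, mem4 e4, by dsimp only; omega⟩
        exact ⟨_, mem2 (d / 3 - 2) (by omega), by simp only [f2]; omega⟩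
      · by_cases k1 : d = 3
        · exact ⟨_, mem4 e2, by dsimp only; omega⟩
        by_cases k3 : d = 3 * s
        · exact ⟨_, mem4 e5, by dsimp only; omega⟩
        exact ⟨_, mem3 (d / 3 - 2) (by omega), by simp only [f3]; omega⟩
    by_cases c2 : d = 3 * s + 2
    · exact ⟨_, mem4 e4, by dsimp only; omega⟩
    by_cases c3 : d ≤ 4 * s + 3
    · exact ⟨_, mem1 (4 * s + 3 - d) (by omega), by simp only [f1]; omega⟩
    by_cases c5 : d ≤ 6 * s + 4
    · rcases Nat.mod_two_eq_zero_or_one d with m | m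
      · exact ⟨_, mem1 ((d - 4 * s - 4) / 2) (by omega), by simp only [f1]; omega⟩
      · by_cases k1 : d = 6 * s + 1
        · exact ⟨_, mem4 e4, by dsimp only; omega⟩
        exact ⟨_, mem3 ((6 * s + 1 - d) / 2 - 1) (by omega), by simp only [f3]; omega⟩
    by_cases c6 : d ≤ 7 * s + 2
    · exact ⟨_, mem3 (d - 6 * s - 4 - 1) (by omega), by simp only [f3]; omega⟩
    by_cases c7 : d = 7 * s + 3
    · exact ⟨_, mem4 e5, by dsimp only; omega⟩
    by_cases c8 : d ≤ 8 * s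
    · exact ⟨_, mem2 (8 * s + 2 - d - 2) (by omega), by simp only [f2]; omega⟩
    by_cases k1 : d = 8 * s + 1
    · exact ⟨_, mem4 e2, by dsimp only; omega⟩
    by_cases k2 : d = 8 * s + 2
    · exact ⟨_, mem4 e3, by dsimp only; omega⟩
    by_cases k3 : d = 8 * s + 3
    · exact ⟨_, mem4 e1, by dsimp only; omega⟩
    by_cases k4 : d = 8 * s + 4
    · exact ⟨_, mem4 e2, by dsimp only; omega⟩
    by_cases k5 : d = 8 * s + 5
    · exact ⟨_, mem4 e1, by dsimp only; omega⟩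
    by_cases k6 : d = 8 * s + 6
    · exact ⟨_, mem4 e5, by dsimp only; omega⟩
    by_cases k7 : d = 8 * s + 7
    · exact ⟨_, mem4 e3, by dsimp only; omega⟩
    rcases Nat.mod_two_eq_zero_or_one d with m | m
    · exact ⟨_, mem2 ((d - 8 * s - 4) / 2 - 2) (by omega), by simp only [f2]; omega⟩
    · exact ⟨_, mem2 ((10 * s + 5 - d) / 2 - 2) (by omega), by simp only [f2]; omega⟩
  · exact card4 (e := 5) hE (by omega)

/-- Base pairs exist for every `n ≥ 100` with `n ≡ 1, 3 (mod 6)`. -/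
theorem exists_base (n : ℕ) (hn : 100 ≤ n) (h : n % 6 = 1 ∨ n % 6 = 3) : ∃ D, IsBase n D := by
  obtain ⟨s, r, hr, rfl⟩ : ∃ s r, r < 18 ∧ n = 18 * s + r :=
    ⟨n / 18, n % 18, Nat.mod_lt _ (by norm_num), (Nat.div_add_mod n 18).symm⟩
  have : r = 1 ∨ r = 7 ∨ r = 13 ∨ r = 3 ∨ r = 9 ∨ r = 15 := by omega
  rcases this with rfl | rfl | rfl | rfl | rfl | rfl
  · exact base1 s (by omega)
  · exact base7 s (by omega)
  · exact base13 s (by omega)
  · exact base3 s (by omega)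
  · exact base9 s (by omega)
  · exact base15 s (by omega)

end Pool.Agent.TH414.Cyc
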