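import Mathlib
import Pool.Agent.TH414.CycA
import Pool.Agent.TH414.CycB

/-!
# The cyclic systems obtained from base pairs by flipping base triples
-/

set_option autoImplicit false

namespace Pool.Agent.TH414.Cyc

open Finset

variable {n : ℕ}

/-- second coordinate of the base triple: `a` or `b` -/
def mid (E : Finset (ℕ × ℕ)) (p : ℕ × ℕ) : ℕ := if p ∈ E then p.2 else p.1

/-- the block `{x, x + m, x + a + b}` -/
def blk (E : Finset (ℕ × ℕ)) (p : ℕ × ℕ) (x : ZMod n) : Finset (ZMod n) :=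
  {x, x + (mid E p : ℕ), x + ((p.1 + p.2 : ℕ) : ZMod n)}

/-- the short block -/
def sblk (x : ZMod n) : Finset (ZMod n) :=
  {x, x + ((n / 3 : ℕ) : ZMod n), x + ((2 * (n / 3) : ℕ) : ZMod n)}

/-- short blocks (if `3 ∣ n`) -/
def shortPart (n : ℕ) [NeZero n] : Finset (Finset (ZMod n)) :=
  if n % 3 = 0 then univ.image sblk else ∅

/-- all blocks -/
def sys (n : ℕ) [NeZero n] (D E : Finset (ℕ × ℕ)) : Finset (Finset (ZMod n)) :=
  (D ×ˢ (univ : Finset (ZMod n))).image (fun q => blk E q.1 q.2) ∪ shortPart n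

theorem natCast_ne {a b : ℕ} (ha : a < n) (hb : b < n) (h : a ≠ b) : (a : ZMod n) ≠ (b : ZMod n) := by
  intro e
  rw [ZMod.natCast_eq_natCast_iff'] at e
  rw [Nat.mod_eq_of_lt ha, Nat.mod_eq_of_lt hb] at e
  exact h e

theorem add_cast_ne (x : ZMod n) {a b : ℕ} (ha : a < n) (hb : b < n) (h : a ≠ b) :
    x + (a : ZMod n) ≠ x + (b : ZMod n) := fun e => natCast_ne ha hb h (add_left_cancel e)

theorem card_tri (x : ZMod n) {a b : ℕ} (ha : 0 < a) (hab : a < b) (hb : b < n) :
    ({x, x + (a : ZMod n), x + (b : ZMod n)} : Finset (ZMod n)).card = 3 := by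
  apply card_eq_three.2
  refine ⟨x, x + (a : ZMod n), x + (b : ZMod n), ?_, ?_, ?_, rfl⟩
  · have := add_cast_ne x (a := 0) (b := a) (by omega) (by omega) (by omega)
    simpa using this
  · have := add_cast_ne x (a := 0) (b := b) (by omega) (by omega) (by omega)
    simpa using this
  · exact add_cast_ne x (by omega) hb (by omega)

theorem mid_cases (E : Finset (ℕ × ℕ)) (p : ℕ × ℕ) : mid E p = p.1 ∨ mid E p = p.2 := by
  unfold mid; split_ifs
  · exact Or.inr rfl
  · exact Or.inl rfl

theorem card_blk (E : Finset (ℕ × ℕ)) (p : ℕ × ℕ) (x : ZMod n) (h0 : 0 < p.1) (h1 : p.1 < p.2)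
    (h2 : p.1 + p.2 < n) : (blk E p x).card = 3 := by
  unfold blk
  apply card_tri
  · rcases mid_cases E p with h | h <;> omega
  · rcases mid_cases E p with h | h <;> omega
  · exact h2

theorem card_sblk (x : ZMod n) (hn : 3 ≤ n) : (sblk x).card = 3 := by
  unfold sblk
  apply card_tri <;> omega

theorem image_blk (E : Finset (ℕ × ℕ)) (p : ℕ × ℕ) (x : ZMod n) :
    (blk E p x).image (fun y => y + 1) = blk E p (x + 1) := by
  unfold blk
  simp only [image_insert, image_singleton]
  congr 1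
  congr 1
  · ring
  · congr 1; ring

theorem image_sblk (x : ZMod n) : (sblk x).image (fun y => y + 1) = sblk (x + 1) := by
  unfold sblk
  simp only [image_insert, image_singleton]
  congr 1
  congr 1
  · ring
  · congr 1; ring

variable [NeZero n]

theorem sys_cyclic (D E : Finset (ℕ × ℕ)) : ∀ b ∈ sys n D E, b.image (fun x => x + 1) ∈ sys n D E := by
  intro b hb
  unfold sys at hb ⊢
  rw [mem_union] at hb ⊢
  rcases hb with hb | hb
  · left
    obtain ⟨q, hq, rfl⟩ := mem_image.1 hb
    rw [mem_product] at hq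
    exact mem_image.2 ⟨(q.1, q.2 + 1), mem_product.2 ⟨hq.1, mem_univ _⟩, (image_blk E q.1 q.2).symm⟩
  · right
    unfold shortPart at hb ⊢
    split_ifs at hb ⊢ with h3
    · obtain ⟨x, _, rfl⟩ := mem_image.1 hb
      exact mem_image.2 ⟨x + 1, mem_univ _, (image_sblk x).symm⟩
    · exact absurd hb (notMem_empty _)

theorem card_shortPart : 3 * (shortPart n).card ≤ n := by
  unfold shortPart
  split_ifs with h3
  · have hsub : (univ : Finset (ZMod n)).image sblk ⊆
        (range (n / 3)).image (fun k : ℕ => sblk ((k : ℕ) : ZMod n)) := by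
      intro b hb
      obtain ⟨x, _, rfl⟩ := mem_image.1 hb
      have hx : ((x.val : ℕ) : ZMod n) = x := ZMod.natCast_zmod_val x
      have hlt : x.val < n := ZMod.val_lt x
      have hn0 : ((3 * (n / 3) : ℕ) : ZMod n) = 0 := by
        have : 3 * (n / 3) = n := by omega
        rw [this]; simp
      push_cast at hn0
      rcases (by omega : x.val < n / 3 ∨ (n / 3 ≤ x.val ∧ x.val < 2 * (n / 3)) ∨
          (2 * (n / 3) ≤ x.val ∧ x.val < 3 * (n / 3))) with c | c | c
      · exact mem_image.2 ⟨x.val, mem_range.2 c, by rw [hx]⟩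
      · refine mem_image.2 ⟨x.val - n / 3, mem_range.2 (by omega), ?_⟩
        have e : (((x.val - n / 3 : ℕ)) : ZMod n) = x - ((n / 3 : ℕ) : ZMod n) := by
          rw [Nat.cast_sub c.1, hx]
        rw [e]
        unfold sblk
        push_cast
        ext y
        simp only [mem_insert, mem_singleton]
        have e1 : x - ((n / 3 : ℕ) : ZMod n) + ((n / 3 : ℕ) : ZMod n) = x := by ring
        have e2 : x - ((n / 3 : ℕ) : ZMod n) + 2 * ((n / 3 : ℕ) : ZMod n)
            = x + ((n / 3 : ℕ) : ZMod n) := by ring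
        have e3 : x - ((n / 3 : ℕ) : ZMod n) = x + 2 * ((n / 3 : ℕ) : ZMod n) := by
          linear_combination (-1 : ZMod n) * hn0
        rw [e1, e2, e3]
        tauto
      · refine mem_image.2 ⟨x.val - 2 * (n / 3), mem_range.2 (by omega), ?_⟩
        have e : (((x.val - 2 * (n / 3) : ℕ)) : ZMod n) = x - 2 * ((n / 3 : ℕ) : ZMod n) := by
          rw [Nat.cast_sub c.1, hx]; push_cast; ring
        rw [e]
        unfold sblk
        push_cast
        ext y
        simp only [mem_insert, mem_singleton]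
        have e1 : x - 2 * ((n / 3 : ℕ) : ZMod n) + 2 * ((n / 3 : ℕ) : ZMod n) = x := by ring
        have e2 : x - 2 * ((n / 3 : ℕ) : ZMod n) + ((n / 3 : ℕ) : ZMod n)
            = x + 2 * ((n / 3 : ℕ) : ZMod n) := by linear_combination (-1 : ZMod n) * hn0
        have e3 : x - 2 * ((n / 3 : ℕ) : ZMod n) = x + ((n / 3 : ℕ) : ZMod n) := by
          linear_combination (-1 : ZMod n) * hn0
        rw [e1, e2, e3]
        tauto
    have h1 := card_le_card hsub
    have h2 : ((range (n / 3)).image (fun k : ℕ => sblk ((k : ℕ) : ZMod n))).card ≤ n / 3 :=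
      card_image_le.trans (card_range _).le
    omega
  · simp

theorem blk_pair_mem (E : Finset (ℕ × ℕ)) (p : ℕ × ℕ) (x y : ZMod n) (d : ℕ) (hd : y = x + (d : ZMod n))
    (h : d = p.1 ∨ d = p.2 ∨ d = p.1 + p.2) : ∃ z : ZMod n, x ∈ blk E p z ∧ y ∈ blk E p z := by
  subst hd
  unfold blk
  rcases mid_cases E p with hm | hm <;> rw [hm] <;> rcases h with h | h | h <;> subst h
  · exact ⟨x, by simp, by simp⟩
  · refine ⟨x - (p.1 : ℕ), by simp, ?_⟩
    have : x + ((p.2 : ℕ) : ZMod n) = x - (p.1 : ℕ) + ((p.1 + p.2 : ℕ) : ZMod n) := by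
      push_cast; ring
    rw [this]; simp
  · exact ⟨x, by simp, by simp⟩
  · refine ⟨x - (p.2 : ℕ), by simp, ?_⟩
    have : x + ((p.1 : ℕ) : ZMod n) = x - (p.2 : ℕ) + ((p.1 + p.2 : ℕ) : ZMod n) := by
      push_cast; ring
    rw [this]; simp
  · exact ⟨x, by simp, by simp⟩
  · exact ⟨x, by simp, by simp⟩

theorem blk_pair_mem' (E : Finset (ℕ × ℕ)) (p : ℕ × ℕ) (x y : ZMod n) (d : ℕ)
    (hd : y = x + (d : ZMod n))
    (h : d = p.1 ∨ d = p.2 ∨ d = p.1 + p.2 ∨ d + p.1 + p.2 = n) :
    ∃ z : ZMod n, x ∈ blk E p z ∧ y ∈ blk E p z := by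
  rcases h with h | h | h | h
  · exact blk_pair_mem E p x y d hd (Or.inl h)
  · exact blk_pair_mem E p x y d hd (Or.inr (Or.inl h))
  · exact blk_pair_mem E p x y d hd (Or.inr (Or.inr h))
  · have hx : x = y + ((p.1 + p.2 : ℕ) : ZMod n) := by
      rw [hd, add_assoc, ← Nat.cast_add]
      have : d + (p.1 + p.2) = n := by omega
      rw [this]; simp
    obtain ⟨z, h1, h2⟩ := blk_pair_mem E p y x (p.1 + p.2) hx (Or.inr (Or.inr rfl))
    exact ⟨z, h2, h1⟩

theorem sys_cover (D E : Finset (ℕ × ℕ)) (hD : IsBase n D) (hodd : n % 2 = 1) :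
    ∀ x y : ZMod n, x ≠ y → ∃ b ∈ sys n D E, x ∈ b ∧ y ∈ b := by
  -- the difference `d` with `2 d < n`
  have key : ∀ x y : ZMod n, ∀ d : ℕ, 1 ≤ d → 2 * d < n → y = x + (d : ZMod n) →
      ∃ b ∈ sys n D E, x ∈ b ∧ y ∈ b := by
    intro x y d h1 h2 hy
    by_cases h3 : 3 * d = n
    · refine ⟨sblk x, ?_, ?_, ?_⟩
      · unfold sys shortPart
        rw [mem_union]
        right
        rw [if_pos (by omega)]
        exact mem_image_of_mem _ (mem_univ _)
      · unfold sblk; simp
      · have : n / 3 = d := by omega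
        unfold sblk
        rw [this, hy]
        simp
    · obtain ⟨p, hp, hpd⟩ := hD.2.1 d h1 h2 h3
      obtain ⟨z, hz1, hz2⟩ := blk_pair_mem' E p x y d hy hpd
      refine ⟨blk E p z, ?_, hz1, hz2⟩
      unfold sys
      rw [mem_union]
      left
      exact mem_image.2 ⟨(p, z), mem_product.2 ⟨hp, mem_univ _⟩, rfl⟩
  intro x y hxy
  have h1 : y = x + (((y - x).val : ℕ) : ZMod n) := by rw [ZMod.natCast_zmod_val]; ring
  have h2 : x = y + (((x - y).val : ℕ) : ZMod n) := by rw [ZMod.natCast_zmod_val]; ring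
  have h3 : (y - x).val ≠ 0 := by
    rw [Ne, ZMod.val_eq_zero, sub_eq_zero]
    exact fun h => hxy h.symm
  have h4 : (x - y).val = n - (y - x).val := by
    have : x - y = -(y - x) := by ring
    rw [this, ZMod.neg_val]
    split_ifs with h0
    · exact absurd (by rw [h0]; simp) h3
    · rfl
  have h5 : (y - x).val < n := ZMod.val_lt _
  by_cases h6 : 2 * (y - x).val < n
  · exact key x y _ (by omega) h6 h1
  · obtain ⟨b, hb, hb1, hb2⟩ := key y x _ (by omega) (by omega) h2
    exact ⟨b, hb, hb2, hb1⟩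

theorem card_sys (D E : Finset (ℕ × ℕ)) (hD : IsBase n D) (h : n % 6 = 1 ∨ n % 6 = 3) :
    6 * (sys n D E).card ≤ n * (n - 1) := by
  have h1 : (sys n D E).card ≤ D.card * n + (shortPart n).card := by
    unfold sys
    refine (card_union_le _ _).trans ?_
    refine Nat.add_le_add_right ?_ _
    refine card_image_le.trans ?_
    rw [card_product, card_univ, ZMod.card]
  have h2 := hD.2.2
  have h3 : D.card * n ≤ n / 6 * n := Nat.mul_le_mul_right n h2
  rcases h with h | h
  · have h4 : (shortPart n).card = 0 := by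
      unfold shortPart
      rw [if_neg (by omega)]; rfl
    have h5 : 6 * (n / 6) = n - 1 := by omega
    calc 6 * (sys n D E).card ≤ 6 * (n / 6 * n) := by omega
      _ = 6 * (n / 6) * n := by ring
      _ = n * (n - 1) := by rw [h5, mul_comm]
  · have h4 := card_shortPart (n := n)
    have h5 : 6 * (n / 6) = n - 3 := by omega
    have h6 : 6 * (n / 6 * n) = (n - 3) * n := by rw [← h5]; ring
    have h7 : (n - 3) * n + 2 * n = n * (n - 1) := by
      obtain ⟨m, rfl⟩ : ∃ m, n = m + 3 := ⟨n - 3, by omega⟩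
      simp only [Nat.add_sub_cancel]
      have : m + 3 - 1 = m + 2 := by omega
      rw [this]; ring
    omega

theorem sys_card3 (D E : Finset (ℕ × ℕ)) (hD : IsBase n D) (hn : 3 ≤ n) :
    ∀ b ∈ sys n D E, b.card = 3 := by
  intro b hb
  unfold sys at hb
  rw [mem_union] at hb
  rcases hb with hb | hb
  · obtain ⟨q, hq, rfl⟩ := mem_image.1 hb
    rw [mem_product] at hq
    obtain ⟨h0, h1, h2⟩ := hD.1 q.1 hq.1
    exact card_blk E q.1 q.2 h0 h1 h2
  · unfold shortPart at hb
    split_ifs at hb with h3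
    · obtain ⟨x, _, rfl⟩ := mem_image.1 hb
      exact card_sblk x hn
    · exact absurd hb (notMem_empty _)

theorem sys_sts (D E : Finset (ℕ × ℕ)) (hD : IsBase n D) (h : n % 6 = 1 ∨ n % 6 = 3) (hn : 3 ≤ n) :
    ∀ x y : ZMod n, x ≠ y → ∃! b : Finset (ZMod n), b ∈ sys n D E ∧ x ∈ b ∧ y ∈ b := by
  apply sts_of_cover (sys n D E) (sys_card3 D E hD hn) (sys_cover D E hD (by omega))
  rw [ZMod.card]
  exact card_sys D E hD h

/-- different sets of flipped triples give different systems -/
theorem sys_inj (D : Finset (ℕ × ℕ)) (hD : IsBase n D) (h : n % 6 = 1 ∨ n % 6 = 3) (hn : 3 ≤ n)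
    (E F : Finset (ℕ × ℕ)) (hE : E ⊆ D) (hF : F ⊆ D) (heq : sys n D E = sys n D F) : E = F := by
  -- it is enough to show that `p ∈ E`, `p ∉ F` is impossible
  have key : ∀ E F : Finset (ℕ × ℕ), sys n D E = sys n D F → ∀ p ∈ D, p ∈ E → p ∉ F → False := by
    intro E F heq p hp hpE hpF
    obtain ⟨h0, h1, h2⟩ := hD.1 p hp
    have hb1 : blk E p (0 : ZMod n) ∈ sys n D E := by
      unfold sys
      exact mem_union_left _ (mem_image.2 ⟨(p, 0), mem_product.2 ⟨hp, mem_univ _⟩, rfl⟩)
    have hb2 : blk F p (0 : ZMod n) ∈ sys n D E := by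
      rw [heq]
      unfold sys
      exact mem_union_left _ (mem_image.2 ⟨(p, 0), mem_product.2 ⟨hp, mem_univ _⟩, rfl⟩)
    have hne : (0 : ZMod n) ≠ ((p.1 + p.2 : ℕ) : ZMod n) := by
      have := natCast_ne (n := n) (a := 0) (b := p.1 + p.2) (by omega) h2 (by omega)
      simpa using this
    obtain ⟨c, _, hc⟩ := sys_sts D E hD h hn 0 ((p.1 + p.2 : ℕ) : ZMod n) hne
    have e1 := hc (blk E p 0) ⟨hb1, by unfold blk; simp, by unfold blk; simp⟩
    have e2 := hc (blk F p 0) ⟨hb2, by unfold blk; simp, by unfold blk; simp⟩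
    have e3 : blk E p (0 : ZMod n) = blk F p 0 := by rw [e1, e2]
    have e4 : ((p.2 : ℕ) : ZMod n) ∈ blk E p (0 : ZMod n) := by
      unfold blk mid
      rw [if_pos hpE]; simp
    rw [e3] at e4
    unfold blk mid at e4
    rw [if_neg hpF] at e4
    simp only [zero_add, mem_insert, mem_singleton] at e4
    rcases e4 with e | e | e
    · have := natCast_ne (n := n) (a := p.2) (b := 0) (by omega) (by omega) (by omega)
      apply this; simpa using e
    · exact natCast_ne (n := n) (a := p.2) (b := p.1) (by omega) (by omega) (by omega) e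
    · exact natCast_ne (n := n) (a := p.2) (b := p.1 + p.2) (by omega) (by omega) (by omega) e
  ext p
  constructor
  · intro hp
    by_contra hn'
    exact key E F heq p (hE hp) hp hn'
  · intro hp
    by_contra hn'
    exact key F E heq.symm p (hF hp) hp hn'

/-- a set of base pairs has many elements -/
theorem base_card (D : Finset (ℕ × ℕ)) (hD : IsBase n D) (hn : 3 ≤ n) : n ≤ 8 * D.card + 4 := by
  classical
  have hsub : (Icc 1 ((n - 1) / 2)).erase (n / 3) ⊆
      D.biUnion (fun p => ({p.1, p.2, p.1 + p.2, n - (p.1 + p.2)} : Finset ℕ)) := by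
    intro d hd
    rw [mem_erase, mem_Icc] at hd
    obtain ⟨p, hp, h⟩ := hD.2.1 d hd.2.1 (by omega) (by omega)
    refine mem_biUnion.2 ⟨p, hp, ?_⟩
    simp only [mem_insert, mem_singleton]
    omega
  have h1 := card_le_card hsub
  have h2 : (D.biUnion (fun p => ({p.1, p.2, p.1 + p.2, n - (p.1 + p.2)} : Finset ℕ))).card
      ≤ D.card * 4 := by
    apply card_biUnion_le_card_mul
    intro p _
    exact card_le_four
  have h3 := pred_card_le_card_erase (s := Icc 1 ((n - 1) / 2)) (a := n / 3)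
  rw [Nat.card_Icc] at h3
  omega

end Pool.Agent.TH414.Cyc
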